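import Pool.Agent.W770.KP.Stm

set_option autoImplicit false

open scoped Classical

namespace Pool.Agent.W648.KP

open Pool.Agent.W770.KP MvPolynomial

theorem t_SH : S_SH := by
  intro F _ m B y α
  rw [← MvPolynomial.finSuccEquiv_coeff_coeff]
  congr 1
  induction B using MvPolynomial.induction_on with
  | C a => simp [shift, dehom, MvPolynomial.finSuccEquiv_apply]
  | add p q hp hq =>
    simp only [shift, dehom, map_add, Polynomial.coeff_add] at *
    rw [hp, hq]
  | mul_X p i hp =>
    simp only [shift, dehom, map_mul, Polynomial.mul_coeff_zero] at *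
    rw [hp]
    congr 1
    refine Fin.cases ?_ (fun j => ?_) i
    · simp [MvPolynomial.finSuccEquiv_apply]
    · simp [MvPolynomial.finSuccEquiv_apply]

end Pool.Agent.W648.KP
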